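import Pool.Agent.KACG.Hill

/-! Row H_GAU of squad KACG: gauge transformation and elementary bounds of `lam`. -/

open scoped ComplexConjugate ContDiff

noncomputable section

namespace Pool.Agent.KACG.H51

open MeasureTheory

/-- the gauge transformation -/
def gg (b : ℝ) (χ : ℝ → ℂ) (s : ℝ) : ℂ := Complex.exp (Complex.I * (b * s : ℝ)) * χ s

lemma gg_smooth {b : ℝ} {χ : ℝ → ℂ} (h : ContDiff ℝ ∞ χ) : ContDiff ℝ ∞ (gg b χ) := by
  unfold gg
  refine ContDiff.mul ?_ h
  refine ContDiff.cexp ?_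
  refine contDiff_const.mul ?_
  exact Complex.ofRealCLM.contDiff.comp (contDiff_const.mul contDiff_id)

lemma norm_ph (b s : ℝ) : ‖Complex.exp (Complex.I * (b * s : ℝ))‖ = 1 := by
  rw [mul_comm]; exact Complex.norm_exp_ofReal_mul_I _

lemma gg_norm (b : ℝ) (χ : ℝ → ℂ) (s : ℝ) : ‖gg b χ s‖ = ‖χ s‖ := by
  rw [gg, norm_mul, norm_ph, one_mul]

lemma gg_neg (b : ℝ) (u : ℝ → ℂ) : gg b (gg (-b) u) = u := by
  funext s
  simp only [gg]
  rw [← mul_assoc, ← Complex.exp_add]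
  have : Complex.I * ((b * s : ℝ) : ℂ) + Complex.I * ((-b * s : ℝ) : ℂ) = 0 := by
    push_cast; ring
  rw [this, Complex.exp_zero, one_mul]

lemma gg_deriv {b : ℝ} {χ : ℝ → ℂ} (h : ContDiff ℝ ∞ χ) (s : ℝ) :
    deriv (gg b χ) s =
      Complex.exp (Complex.I * (b * s : ℝ)) * (Complex.I * b * χ s + deriv χ s) := by
  have h1 : HasDerivAt χ (deriv χ s) s :=
    ((h.differentiable (by simp)) s).hasDerivAt
  have h2 : HasDerivAt (fun s : ℝ => Complex.I * ((b * s : ℝ) : ℂ)) (Complex.I * (b : ℂ)) s := by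
    have h3 : HasDerivAt (fun s : ℝ => ((b * s : ℝ) : ℂ)) ((b * 1 : ℝ) : ℂ) s :=
      ((hasDerivAt_id s).const_mul b).ofReal_comp
    simpa using h3.const_mul Complex.I
  have h4 := (h2.cexp).mul h1
  have h5 : HasDerivAt (gg b χ) (Complex.exp (Complex.I * (b * s : ℝ)) * (Complex.I * b) * χ s +
      Complex.exp (Complex.I * (b * s : ℝ)) * deriv χ s) s := h4
  rw [h5.deriv]; ring

lemma gg_deriv_norm {b : ℝ} {χ : ℝ → ℂ} (h : ContDiff ℝ ∞ χ) (s : ℝ) :
    ‖deriv (gg b χ) s‖ ^ 2 =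
      ‖deriv χ s‖ ^ 2 + 2 * b * (conj (χ s) * deriv χ s).im + b ^ 2 * ‖χ s‖ ^ 2 := by
  rw [gg_deriv h, norm_mul, norm_ph, one_mul]
  rw [← Complex.normSq_eq_norm_sq, ← Complex.normSq_eq_norm_sq, ← Complex.normSq_eq_norm_sq]
  simp only [Complex.normSq_apply, Complex.add_re, Complex.add_im, Complex.mul_re, Complex.mul_im,
    Complex.I_re, Complex.I_im, Complex.ofReal_re, Complex.ofReal_im, Complex.conj_re,
    Complex.conj_im]
  ring

lemma gg_mass (L b : ℝ) (χ : ℝ → ℂ) : mass L (gg b χ) = mass L χ := by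
  unfold mass; simp only [gg_norm]

lemma cont_deriv {χ : ℝ → ℂ} (h : ContDiff ℝ ∞ χ) : Continuous (deriv χ) :=
  h.continuous_deriv (by simp)

lemma gg_enr {L b : ℝ} {V : ℝ → ℝ} (hV : Continuous V) {χ : ℝ → ℂ} (h : ContDiff ℝ ∞ χ) :
    enr L V (gg b χ) = enf L V b χ + b ^ 2 * mass L χ := by
  have hc : Continuous χ := h.continuous
  have hd := cont_deriv h
  unfold enr enf mass
  rw [← intervalIntegral.integral_const_mul, ← intervalIntegral.integral_add]
  · apply intervalIntegral.integral_congr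
    intro s _
    simp only [gg_deriv_norm h, gg_norm]
    ring
  · apply Continuous.intervalIntegrable
    refine ((hd.norm.pow 2).add (continuous_const.mul ?_)).add (hV.mul (hc.norm.pow 2))
    exact Complex.continuous_im.comp ((Complex.continuous_conj.comp hc).mul hd)
  · apply Continuous.intervalIntegrable
    exact continuous_const.mul (hc.norm.pow 2)

lemma gg_QP {L b : ℝ} {χ : ℝ → ℂ} (h : ContDiff ℝ ∞ χ) (hp : Function.Periodic χ L) :
    QP L b (gg b χ) := by
  refine ⟨gg_smooth h, fun s => ?_⟩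
  simp only [gg]
  rw [hp s, ← mul_assoc, ← Complex.exp_add]
  congr 2
  push_cast; ring

lemma QP_gg {L b : ℝ} {u : ℝ → ℂ} (h : QP L b u) :
    ContDiff ℝ ∞ (gg (-b) u) ∧ Function.Periodic (gg (-b) u) L := by
  refine ⟨gg_smooth h.1, fun s => ?_⟩
  simp only [gg]
  rw [h.2 s, ← mul_assoc, ← Complex.exp_add]
  congr 2
  push_cast; ring

lemma enr_ge {L : ℝ} (hL : 0 < L) {V : ℝ → ℝ} (hV : Continuous V) {C : ℝ} (hC : ∀ s, |V s| ≤ C)
    {u : ℝ → ℂ} (h : ContDiff ℝ ∞ u) : -C * mass L u ≤ enr L V u := by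
  have hc : Continuous u := h.continuous
  have hd := cont_deriv h
  unfold enr mass
  rw [← intervalIntegral.integral_const_mul]
  apply intervalIntegral.integral_mono_on hL.le
  · exact (continuous_const.mul (hc.norm.pow 2)).intervalIntegrable _ _
  · exact ((hd.norm.pow 2).add (hV.mul (hc.norm.pow 2))).intervalIntegrable _ _
  · intro s _
    have h1 : -C ≤ V s := (abs_le.1 (hC s)).1
    have h2 : 0 ≤ ‖u s‖ ^ 2 := by positivity
    have h3 : 0 ≤ ‖deriv u s‖ ^ 2 := by positivity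
    nlinarith

lemma mass_nonneg {L : ℝ} (hL : 0 < L) (u : ℝ → ℂ) : 0 ≤ mass L u := by
  unfold mass
  apply intervalIntegral.integral_nonneg hL.le
  intro s _; positivity

lemma enr_smul {L : ℝ} {V : ℝ → ℝ} (c : ℝ) {u : ℝ → ℂ} (h : ContDiff ℝ ∞ u) :
    enr L V (fun s => (c : ℂ) * u s) = c ^ 2 * enr L V u := by
  unfold enr
  rw [← intervalIntegral.integral_const_mul]
  apply intervalIntegral.integral_congr
  intro s _
  have h1 : HasDerivAt u (deriv u s) s := ((h.differentiable (by simp)) s).hasDerivAt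
  have h2 : deriv (fun s => (c : ℂ) * u s) s = (c : ℂ) * deriv u s := (h1.const_mul _).deriv
  simp only [h2, norm_mul, Complex.norm_real, mul_pow, Real.norm_eq_abs, sq_abs]
  ring

lemma mass_smul {L : ℝ} (c : ℝ) (u : ℝ → ℂ) :
    mass L (fun s => (c : ℂ) * u s) = c ^ 2 * mass L u := by
  unfold mass
  rw [← intervalIntegral.integral_const_mul]
  apply intervalIntegral.integral_congr
  intro s _
  simp only [norm_mul, Complex.norm_real, mul_pow, Real.norm_eq_abs, sq_abs]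

lemma bdd_V {L : ℝ} (hL : 0 < L) {V : ℝ → ℝ} (hV : Continuous V) (hp : Function.Periodic V L) :
    ∃ C : ℝ, ∀ s, |V s| ≤ C := by
  obtain ⟨C, hC⟩ := (isCompact_Icc (a := (0 : ℝ)) (b := L)).exists_bound_of_continuousOn
    hV.continuousOn
  refine ⟨C, fun s => ?_⟩
  obtain ⟨y, hy, hxy⟩ := hp.exists_mem_Ico₀ hL s
  rw [hxy]
  have := hC y ⟨hy.1, hy.2.le⟩
  simpa [Real.norm_eq_abs] using this

/-- the set in the definition of `lam` -/
def SL (L : ℝ) (V : ℝ → ℝ) (b : ℝ) : Set ℝ :=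
  {t : ℝ | ∃ χ : ℝ → ℂ, ContDiff ℝ ∞ χ ∧ Function.Periodic χ L ∧ mass L χ = 1 ∧
    t = enf L V b χ}

lemma SL_low {L : ℝ} (hL : 0 < L) {V : ℝ → ℝ} (hV : Continuous V) {C : ℝ} (hC : ∀ s, |V s| ≤ C)
    (b : ℝ) : ∀ t ∈ SL L V b, -C - b ^ 2 ≤ t := by
  rintro t ⟨χ, h1, h2, h3, rfl⟩
  have h4 := gg_enr (L := L) (b := b) hV h1
  have h5 := enr_ge hL hV hC (gg_smooth (b := b) h1)
  rw [gg_mass, h3] at h5
  rw [h3] at h4
  linarith

lemma SL_const {L : ℝ} (hL : 0 < L) {V : ℝ → ℝ} (hV : Continuous V) {C : ℝ} (hC : ∀ s, |V s| ≤ C)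
    (b : ℝ) : ∃ t ∈ SL L V b, t ≤ C := by
  have hs : (((Real.sqrt L)⁻¹ : ℝ)) ^ 2 = L⁻¹ := by
    rw [inv_pow, Real.sq_sqrt hL.le]
  have hn : ‖(((Real.sqrt L)⁻¹ : ℝ) : ℂ)‖ ^ 2 = L⁻¹ := by
    rw [Complex.norm_real, Real.norm_eq_abs, sq_abs, hs]
  refine ⟨enf L V b (fun _ => (((Real.sqrt L)⁻¹ : ℝ) : ℂ)),
    ⟨_, contDiff_const, fun s => rfl, ?_, rfl⟩, ?_⟩
  · unfold mass
    simp only [hn]
    rw [intervalIntegral.integral_const, smul_eq_mul, sub_zero, mul_inv_cancel₀ hL.ne']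
  · unfold enf
    simp only [deriv_const, hn]
    have e : ∀ s : ℝ, (‖(0 : ℂ)‖ ^ 2 + 2 * b * (conj ((((Real.sqrt L)⁻¹ : ℝ)) : ℂ) * 0).im +
        V s * L⁻¹) = V s * L⁻¹ := by intro s; simp
    simp only [e]
    have h1 : (∫ s in (0 : ℝ)..L, V s * L⁻¹) ≤ ∫ s in (0 : ℝ)..L, C * L⁻¹ := by
      apply intervalIntegral.integral_mono_on hL.le
      · exact (hV.mul continuous_const).intervalIntegrable _ _
      · exact continuous_const.intervalIntegrable _ _
      · intro s _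
        exact mul_le_mul_of_nonneg_right (le_trans (le_abs_self _) (hC s)) (inv_nonneg.2 hL.le)
    refine h1.trans ?_
    rw [intervalIntegral.integral_const, smul_eq_mul, sub_zero]
    have : L * (C * L⁻¹) = C := by field_simp
    rw [this]

theorem h_gau : GauStmt := by
  intro L V b hL hVs hp
  have hV : Continuous V := hVs.continuous
  obtain ⟨C₀, hC₀⟩ := bdd_V hL hV hp
  have hlam : lam L V b = sInf (SL L V b) := rfl
  have hbb : BddBelow (SL L V b) := ⟨_, fun t ht => SL_low hL hV hC₀ b t ht⟩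
  have hne : (SL L V b).Nonempty := by
    obtain ⟨t, ht, -⟩ := SL_const hL hV hC₀ b
    exact ⟨t, ht⟩
  refine ⟨?_, ?_, ?_⟩
  · intro u hu
    rcases (mass_nonneg hL u).eq_or_lt with h0 | h0
    · rw [← h0, mul_zero]
      have h1 := enr_ge hL hV hC₀ hu.1
      rw [← h0, mul_zero] at h1
      exact h1
    · set m := mass L u with hm
      set c : ℝ := (Real.sqrt m)⁻¹ with hc
      have hc2 : c ^ 2 = m⁻¹ := by rw [hc, inv_pow, Real.sq_sqrt h0.le]
      set v : ℝ → ℂ := fun s => (c : ℂ) * u s with hv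
      have hvq : QP L b v := by
        refine ⟨contDiff_const.mul hu.1, fun s => ?_⟩
        simp only [hv]
        rw [hu.2 s]; ring
      have hvm : mass L v = 1 := by
        rw [hv, mass_smul, hc2, ← hm, inv_mul_cancel₀ h0.ne']
      have hve : enr L V v = m⁻¹ * enr L V u := by
        rw [hv, enr_smul c hu.1, hc2]
      have h1 := QP_gg hvq
      have h2 : enr L V v = enf L V b (gg (-b) v) + b ^ 2 * mass L (gg (-b) v) := by
        have := gg_enr (L := L) (b := b) hV h1.1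
        rwa [gg_neg] at this
      rw [gg_mass, hvm, mul_one] at h2
      have h3 : lam L V b ≤ enf L V b (gg (-b) v) := by
        rw [hlam]
        exact csInf_le hbb ⟨_, h1.1, h1.2, by rw [gg_mass, hvm], rfl⟩
      have h4 : lam L V b + b ^ 2 ≤ m⁻¹ * enr L V u := by rw [← hve, h2]; linarith
      have h5 := mul_le_mul_of_nonneg_right h4 h0.le
      have h6 : m⁻¹ * enr L V u * m = enr L V u := by field_simp
      rw [h6] at h5
      exact h5
  · have hex : ∀ n : ℕ, ∃ χ : ℝ → ℂ, ContDiff ℝ ∞ χ ∧ Function.Periodic χ L ∧ mass L χ = 1 ∧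
        enf L V b χ < lam L V b + 1 / ((n : ℝ) + 1) := by
      intro n
      have hpos : (0 : ℝ) < 1 / ((n : ℝ) + 1) := by positivity
      obtain ⟨t, ⟨χ, h1, h2, h3, h4⟩, h5⟩ := exists_lt_of_csInf_lt hne
        (show sInf (SL L V b) < lam L V b + 1 / ((n : ℝ) + 1) by rw [hlam]; linarith)
      exact ⟨χ, h1, h2, h3, by rw [← h4]; exact h5⟩
    choose χ h1 h2 h3 h4 using hex
    refine ⟨fun n => gg b (χ n), fun n => ⟨gg_QP (h1 n) (h2 n), by rw [gg_mass, h3]⟩, ?_⟩
    have he : ∀ n, enr L V (gg b (χ n)) = enf L V b (χ n) + b ^ 2 := by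
      intro n
      rw [gg_enr hV (h1 n), h3 n, mul_one]
    simp only [he]
    refine Filter.Tendsto.add_const _ ?_
    have hlow : ∀ n, lam L V b ≤ enf L V b (χ n) := by
      intro n
      rw [hlam]
      exact csInf_le hbb ⟨_, h1 n, h2 n, h3 n, rfl⟩
    refine tendsto_of_tendsto_of_tendsto_of_le_of_le (g := fun _ : ℕ => lam L V b)
      (h := fun n : ℕ => lam L V b + 1 / ((n : ℝ) + 1)) tendsto_const_nhds ?_ hlow
      (fun n => (h4 n).le)
    have := (tendsto_one_div_add_atTop_nhds_zero_nat (𝕜 := ℝ)).const_add (lam L V b)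
    simpa using this
  · intro C hC
    obtain ⟨t, ht, htC⟩ := SL_const hL hV hC b
    have h1 : lam L V b ≤ C := by
      rw [hlam]; exact (csInf_le hbb ht).trans htC
    have h2 : -C - b ^ 2 ≤ lam L V b := by
      rw [hlam]; exact le_csInf hne (fun t ht => SL_low hL hV hC b t ht)
    have h3 : 0 ≤ b ^ 2 := sq_nonneg b
    rw [abs_le]
    constructor <;> linarith

end Pool.Agent.KACG.H51
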